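import Pool.Agent.D0H52.TW.Base

/-!
# TW: solutions modulo prime powers (helper52)
-/

set_option autoImplicit false

namespace Pool.Agent.D0H52.TW

open Finset hiding box
open Pool.Agent.D0H11.TW

theorem mem_box {q : ℕ} {s : Fin 4 → ℤ} : s ∈ box q ↔ ∀ i, 0 ≤ s i ∧ s i < q := by
  unfold box
  rw [Fintype.mem_piFinset]
  simp only [Finset.mem_Ico]

theorem sum_box_mul {q l : ℕ} (hq : 0 < q) (hl : 0 < l) {M : Type} [AddCommMonoid M]
    (f : (Fin 4 → ℤ) → M) :
    ∑ s ∈ box (q * l), f s = ∑ s0 ∈ box q, ∑ r ∈ box l, f (fun i => s0 i + q * r i) := by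
  have hq' : (0 : ℤ) < q := by exact_mod_cast hq
  rw [← Finset.sum_product']
  refine Finset.sum_bij' (fun s _ => (fun i => s i % q, fun i => s i / q))
    (fun p _ => fun i => p.1 i + q * p.2 i) ?_ ?_ ?_ ?_ ?_
  · intro s hs
    rw [mem_box] at hs
    rw [Finset.mem_product, mem_box, mem_box]
    refine ⟨fun i => ⟨Int.emod_nonneg _ hq'.ne', Int.emod_lt_of_pos _ hq'⟩, fun i => ⟨?_, ?_⟩⟩
    · exact Int.ediv_nonneg (hs i).1 hq'.le
    · have := (hs i).2
      apply Int.ediv_lt_of_lt_mul hq'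
      push_cast at this
      linarith [mul_comm (q : ℤ) l]
  · intro p hp
    rw [Finset.mem_product, mem_box, mem_box] at hp
    rw [mem_box]
    intro i
    obtain ⟨h1, h2⟩ := hp.1 i
    obtain ⟨h3, h4⟩ := hp.2 i
    push_cast
    constructor
    · positivity
    · nlinarith
  · intro s _
    funext i
    exact Int.emod_add_mul_ediv _ _
  · intro p hp
    rw [Finset.mem_product, mem_box, mem_box] at hp
    refine Prod.ext ?_ ?_
    · funext i
      simp only
      rw [Int.add_mul_emod_self_left, Int.emod_eq_of_lt (hp.1 i).1 (hp.1 i).2]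
    · funext i
      simp only
      rw [Int.add_mul_ediv_left _ _ hq'.ne', Int.ediv_eq_zero_of_lt (hp.1 i).1 (hp.1 i).2, zero_add]
  · intro s _
    congr 1
    funext i
    exact (Int.emod_add_mul_ediv _ _).symm

theorem qf_shift (u s r : Fin 4 → ℤ) (q : ℤ) :
    qf u (fun i => s i + q * r i) = qf u s + q * (∑ i, cc i * (840 * s i + u i) * r i) +
      q * (q * (420 * ∑ i, cc i * r i ^ 2)) := by
  unfold qf ph
  simp only [Fin.sum_univ_four]
  ring

theorem Qf_shift (u s : Fin 4 → ℤ) :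
    Qf (fun i => 840 * s i + u i) = 1680 * qf u s + Qf u := by
  unfold Qf qf ph
  simp only [Fin.sum_univ_four]
  ring

theorem hen1 (l j : ℕ) (u : Fin 4 → ℤ) (m : ℤ) (hl : l.Prime)
    (hD : ¬ (l : ℤ) ∣ 1680 * m + Qf u) (hj : 1 ≤ j) :
    NN (l ^ (j + 1)) u m = l ^ 3 * NN (l ^ j) u m := by
  have : Fact l.Prime := ⟨hl⟩
  have : NeZero l := ⟨hl.ne_zero⟩
  have hq : 0 < l ^ j := pow_pos hl.pos j
  have hlq : (l : ℤ) ∣ ((l ^ j : ℕ) : ℤ) := by
    exact_mod_cast dvd_pow_self l (by omega : j ≠ 0)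
  unfold NN
  rw [Finset.card_filter, Finset.card_filter, Finset.mul_sum, pow_succ,
    sum_box_mul hq hl.pos]
  apply Finset.sum_congr rfl
  intro s _
  set q : ℤ := ((l ^ j : ℕ) : ℤ) with hqdef
  have hq0 : q ≠ 0 := by rw [hqdef]; exact_mod_cast hq.ne'
  by_cases h : q ∣ qf u s - m
  · rw [if_pos h, mul_one]
    obtain ⟨e, he⟩ := h
    -- the linear congruence
    have h1 : ∀ r : Fin 4 → ℤ, (((l ^ j * l : ℕ) : ℤ) ∣ qf u (fun i => s i + q * r i) - m) ↔
        ∑ i, (((cc i * (840 * s i + u i) : ℤ)) : ZMod l) * ((r i : ℤ) : ZMod l) = ((-e : ℤ) : ZMod l) := by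
      intro r
      have h2 : qf u (fun i => s i + q * r i) - m = q * (e + ∑ i, cc i * (840 * s i + u i) * r i +
          q * (420 * ∑ i, cc i * r i ^ 2)) := by
        rw [qf_shift]
        linear_combination he
      rw [h2]
      push_cast
      have h3 : ((l : ℤ) ^ j * l) = q * l := by rw [hqdef]; push_cast; ring
      rw [h3, mul_dvd_mul_iff_left hq0]
      have h4 : (l : ℤ) ∣ q * (420 * ∑ i, cc i * r i ^ 2) := Dvd.dvd.mul_right hlq _
      rw [Int.dvd_add_left h4, ← ZMod.intCast_zmod_eq_zero_iff_dvd]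
      push_cast
      constructor
      · intro h5; linear_combination h5
      · intro h5; linear_combination h5
    have h2 : (∑ r ∈ box l, if (((l ^ j * l : ℕ) : ℤ) ∣ qf u (fun i => s i + q * r i) - m) then 1 else 0)
        = (univ.filter fun r : Fin 4 → ZMod l =>
          ∑ i, (((cc i * (840 * s i + u i) : ℤ)) : ZMod l) * r i = ((-e : ℤ) : ZMod l)).card := by
      rw [Finset.card_filter]
      rw [← sum_box (fun r : Fin 4 → ZMod l =>
        if ∑ i, (((cc i * (840 * s i + u i) : ℤ)) : ZMod l) * r i = ((-e : ℤ) : ZMod l) then 1 else 0)]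
      apply Finset.sum_congr rfl
      intro r _
      by_cases h5 : ∑ i, (((cc i * (840 * s i + u i) : ℤ)) : ZMod l) * ((r i : ℤ) : ZMod l) = ((-e : ℤ) : ZMod l)
      · rw [if_pos ((h1 r).2 h5), if_pos h5]
      · rw [if_neg (fun h' => h5 ((h1 r).1 h')), if_neg h5]
    rw [h2]
    -- some coefficient is a unit
    obtain ⟨i, hi⟩ : ∃ i, (((cc i * (840 * s i + u i) : ℤ)) : ZMod l) ≠ 0 := by
      by_contra hcon
      push Not at hcon
      apply hD
      have h6 : (l : ℤ) ∣ Qf (fun i => 840 * s i + u i) := by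
        unfold Qf
        apply Finset.dvd_sum
        intro i _
        have := (ZMod.intCast_zmod_eq_zero_iff_dvd _ _).1 (hcon i)
        have h7 : cc i * (840 * s i + u i) ^ 2 = cc i * (840 * s i + u i) * (840 * s i + u i) := by ring
        rw [h7]
        exact Dvd.dvd.mul_right this _
      have h8 : 1680 * m + Qf u = Qf (fun i => 840 * s i + u i) - 1680 * (q * e) := by
        rw [Qf_shift, ← he]; ring
      rw [h8]
      exact dvd_sub h6 (Dvd.dvd.mul_left (Dvd.dvd.mul_right hlq _) _)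
    refine card_one i (fun k x => (((cc k * (840 * s k + u k) : ℤ)) : ZMod l) * x) _ ?_
    exact (Equiv.mulLeft₀ _ hi).bijective
  · rw [if_neg h, mul_zero]
    apply Finset.sum_eq_zero
    intro r _
    rw [if_neg]
    intro h2
    apply h
    rw [qf_shift] at h2
    have h3 : q ∣ qf u s + q * (∑ i, cc i * (840 * s i + u i) * r i) +
      q * (q * (420 * ∑ i, cc i * r i ^ 2)) - m := by
      refine dvd_trans ?_ h2
      rw [hqdef]
      push_cast
      exact dvd_mul_right _ _
    have h4 : qf u s - m = (qf u s + q * (∑ i, cc i * (840 * s i + u i) * r i) +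
      q * (q * (420 * ∑ i, cc i * r i ^ 2)) - m) - q * ((∑ i, cc i * (840 * s i + u i) * r i) +
      (q * (420 * ∑ i, cc i * r i ^ 2))) := by ring
    rw [h4]
    exact dvd_sub h3 (dvd_mul_right _ _)

theorem unit_of_coprime {q : ℕ} (a : ℤ) (h : IsCoprime a (q : ℤ)) : IsUnit ((a : ℤ) : ZMod q) := by
  obtain ⟨x, y, hxy⟩ := h
  have h1 : ((x * a + y * q : ℤ) : ZMod q) = ((1 : ℤ) : ZMod q) := by rw [hxy]
  push_cast at h1
  rw [ZMod.natCast_self, mul_zero, add_zero] at h1
  exact IsUnit.of_mul_eq_one_right _ h1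

theorem hen2 (l j : ℕ) (u : Fin 4 → ℤ) (m : ℤ) (hl : l ∈ ({2, 3, 5, 7} : Finset ℕ)) (hu : GoodU u) :
    NN (l ^ j) u m = l ^ (3 * j) := by
  have hlp : l.Prime ∧ (l : ℤ) ∣ 420 ∧ (l : ℤ) ∈ ({2, 3, 5, 7} : Finset ℤ) := by
    simp only [Finset.mem_insert, Finset.mem_singleton] at hl
    rcases hl with h | h | h | h <;> subst h <;> refine ⟨by norm_num, by norm_num, by norm_num⟩
  obtain ⟨hp, h420, hmem⟩ := hlp
  obtain ⟨i, hi⟩ := hu.2 l hmem
  have : NeZero (l ^ j) := ⟨(pow_pos hp.pos j).ne'⟩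
  rw [NN_eq]
  unfold qz
  rw [card_one i (fun k x => ((cc k : ℤ) : ZMod (l ^ j)) * (420 * x ^ 2 + ((u k : ℤ) : ZMod (l ^ j)) * x)) _ ?_]
  · rw [← pow_mul, mul_comm]
  · rw [← Finite.injective_iff_bijective]
    intro x y hxy
    simp only at hxy
    have hc : IsUnit ((cc i : ℤ) : ZMod (l ^ j)) := by
      apply unit_of_coprime
      push_cast
      exact (IsCoprime.of_mul_left_left hi).pow_right
    have h1 : (420 * x ^ 2 + ((u i : ℤ) : ZMod (l ^ j)) * x) = (420 * y ^ 2 + ((u i : ℤ) : ZMod (l ^ j)) * y) :=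
      hc.mul_left_cancel hxy
    have h2 : (420 * (x + y) + ((u i : ℤ) : ZMod (l ^ j))) * (x - y) = 0 := by linear_combination h1
    have h3 : IsUnit (420 * (x + y) + ((u i : ℤ) : ZMod (l ^ j))) := by
      have h4 : (420 * (x + y) + ((u i : ℤ) : ZMod (l ^ j))) =
          ((420 * ((x.val : ℤ) + (y.val : ℤ)) + u i : ℤ) : ZMod (l ^ j)) := by
        push_cast
        rw [ZMod.natCast_zmod_val, ZMod.natCast_zmod_val]
      rw [h4]
      apply unit_of_coprime
      push_cast
      apply IsCoprime.pow_right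
      have h5 : IsCoprime (u i) (l : ℤ) := IsCoprime.of_mul_left_right hi
      obtain ⟨k, hk⟩ := h420
      rw [hk]
      have h6 : (l : ℤ) * k * ((x.val : ℤ) + (y.val : ℤ)) + u i =
          u i + (l : ℤ) * (k * ((x.val : ℤ) + (y.val : ℤ))) := by ring
      rw [h6]
      exact h5.add_mul_left_left _
    have h7 : x - y = 0 := by
      apply h3.mul_left_cancel
      rw [h2, mul_zero]
    exact sub_eq_zero.1 h7

theorem hen : S_HEN :=
  ⟨fun l j u m hl _ hD hj => hen1 l j u m hl hD hj, fun l j u m hl hu => hen2 l j u m hl hu⟩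

end Pool.Agent.D0H52.TW
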