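import Pool.Agent.D0H52.TW.Hen
import Pool.Agent.H336R2.V.Raman

/-!
# TW: the singular series (helper52)
-/

set_option autoImplicit false

namespace Pool.Agent.D0H52.TW

open Finset hiding box
open Pool.Agent.D0H11.TW
open ArithmeticFunction (moebius zeta)

theorem rs_eq (q : ℕ) (hq : 1 ≤ q) (n : ℤ) :
    rs q n = ∑ d ∈ q.divisors, ((moebius d : ℤ) : ℝ) *
      (if ((q / d : ℕ) : ℤ) ∣ n then ((q / d : ℕ) : ℝ) else 0) := by
  have h := congrArg Complex.re (H336V.RamanAux.raman_eq q hq n)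
  rw [Complex.re_sum, Complex.re_sum] at h
  have h1 : rs q n = ∑ a ∈ (range q).filter (fun a => a.Coprime q),
      (H343.ex ((a : ℝ) * n / q)).re := by
    unfold rs
    apply Finset.sum_congr rfl
    intro a _
    unfold H343.ex
    rw [Complex.exp_ofReal_mul_I_re]
    congr 1
    ring
  rw [h1, h]
  apply Finset.sum_congr rfl
  intro d _
  split_ifs
  · rw [← Complex.ofReal_intCast, ← Complex.ofReal_natCast, ← Complex.ofReal_mul, Complex.ofReal_re]
  · simp

theorem card_dvd (e d : ℕ) (he : 0 < e) (hd : 0 < d) (u : Fin 4 → ℤ) (m : ℤ) :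
    ((box (e * d)).filter (fun s => (e : ℤ) ∣ m - qf u s)).card = d ^ 4 * NN e u m := by
  unfold NN
  rw [Finset.card_filter, Finset.card_filter, Finset.mul_sum, sum_box_mul he hd]
  apply Finset.sum_congr rfl
  intro s _
  have hcard : (box d).card = d ^ 4 := by
    unfold box
    rw [Fintype.card_piFinset]
    simp
  have h1 : ∀ r : Fin 4 → ℤ, ((e : ℤ) ∣ m - qf u (fun i => s i + e * r i)) ↔ (e : ℤ) ∣ qf u s - m := by
    intro r
    rw [qf_shift]
    have h2 : m - (qf u s + e * (∑ i, cc i * (840 * s i + u i) * r i) +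
      e * (e * (420 * ∑ i, cc i * r i ^ 2))) = -(qf u s - m) + e * (-((∑ i, cc i * (840 * s i + u i) * r i) +
      (e * (420 * ∑ i, cc i * r i ^ 2)))) := by ring
    rw [h2, Int.dvd_add_left (dvd_mul_right _ _), dvd_neg]
  by_cases h : (e : ℤ) ∣ qf u s - m
  · rw [if_pos h, mul_one, ← hcard, Finset.card_eq_sum_ones]
    apply Finset.sum_congr rfl
    intro r _
    rw [if_pos ((h1 r).2 h)]
  · rw [if_neg h, mul_zero]
    apply Finset.sum_eq_zero
    intro r _
    rw [if_neg (fun h' => h ((h1 r).1 h'))]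

/-- `NN d / d ^ 3` -/
noncomputable def ff (u : Fin 4 → ℤ) (m : ℤ) : ArithmeticFunction ℝ :=
  ⟨fun d => (NN d u m : ℝ) / (d : ℝ) ^ 3, by simp⟩

theorem ff_apply (u : Fin 4 → ℤ) (m : ℤ) (d : ℕ) : ff u m d = (NN d u m : ℝ) / (d : ℝ) ^ 3 := rfl

theorem AA_eq (q : ℕ) (hq : 1 ≤ q) (u : Fin 4 → ℤ) (m : ℤ) :
    AA q u m = ∑ d ∈ q.divisors, ((moebius d : ℤ) : ℝ) * ff u m (q / d) := by
  unfold AA
  have h1 : ∑ s ∈ box q, rs q (m - qf u s) = ∑ d ∈ q.divisors, ((moebius d : ℤ) : ℝ) *
      (((q / d : ℕ) : ℝ) * (((d ^ 4 * NN (q / d) u m : ℕ) : ℝ))) := by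
    simp_rw [rs_eq q hq]
    rw [Finset.sum_comm]
    apply Finset.sum_congr rfl
    intro d hd
    rw [← Finset.mul_sum]
    congr 1
    have hdq := Nat.dvd_of_mem_divisors hd
    have hd0 : 0 < d := Nat.pos_of_mem_divisors hd
    have he0 : 0 < q / d := Nat.div_pos (Nat.le_of_dvd (by omega) hdq) hd0
    rw [← card_dvd (q / d) d he0 hd0 u m, Nat.div_mul_cancel hdq, Finset.card_filter]
    push_cast
    rw [Finset.mul_sum]
    apply Finset.sum_congr rfl
    intro s _
    split_ifs <;> simp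
  rw [h1, Finset.mul_sum]
  apply Finset.sum_congr rfl
  intro d hd
  have hdq := Nat.dvd_of_mem_divisors hd
  have hd0 : 0 < d := Nat.pos_of_mem_divisors hd
  obtain ⟨e, he⟩ := hdq
  have he0 : 0 < e := by
    rcases Nat.eq_zero_or_pos e with h | h
    · subst h; omega
    · exact h
  have hqd : q / d = e := by rw [he]; exact Nat.mul_div_cancel_left e hd0
  rw [hqd, ff_apply, he]
  have hd' : (d : ℝ) ≠ 0 := by exact_mod_cast hd0.ne'
  have he' : (e : ℝ) ≠ 0 := by exact_mod_cast he0.ne'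
  push_cast
  field_simp

theorem NN_mul (a b : ℕ) (ha : a ≠ 0) (hb : b ≠ 0) (hab : a.Coprime b) (u : Fin 4 → ℤ) (m : ℤ) :
    NN (a * b) u m = NN a u m * NN b u m := by
  have : NeZero a := ⟨ha⟩
  have : NeZero b := ⟨hb⟩
  have : NeZero (a * b) := ⟨mul_ne_zero ha hb⟩
  rw [NN_eq, NN_eq, NN_eq, ← Finset.card_product]
  let e := ZMod.chineseRemainder hab
  have hz : ∀ v : Fin 4 → ZMod (a * b), e (qz u v) = (qz u (fun i => (e (v i)).1), qz u (fun i => (e (v i)).2)) := by
    intro v
    unfold qz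
    refine Prod.ext ?_ ?_
    · have h1 : (e (∑ i, ((cc i : ℤ) : ZMod (a * b)) * (420 * v i ^ 2 + ((u i : ℤ) : ZMod (a * b)) * v i))).1 =
        ((RingHom.fst (ZMod a) (ZMod b)).comp e.toRingHom)
          (∑ i, ((cc i : ℤ) : ZMod (a * b)) * (420 * v i ^ 2 + ((u i : ℤ) : ZMod (a * b)) * v i)) := rfl
      rw [h1]
      simp only [map_sum, map_mul, map_add, map_pow, map_intCast, map_ofNat]
      rfl
    · have h1 : (e (∑ i, ((cc i : ℤ) : ZMod (a * b)) * (420 * v i ^ 2 + ((u i : ℤ) : ZMod (a * b)) * v i))).2 =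
        ((RingHom.snd (ZMod a) (ZMod b)).comp e.toRingHom)
          (∑ i, ((cc i : ℤ) : ZMod (a * b)) * (420 * v i ^ 2 + ((u i : ℤ) : ZMod (a * b)) * v i)) := rfl
      rw [h1]
      simp only [map_sum, map_mul, map_add, map_pow, map_intCast, map_ofNat]
      rfl
  have hm : e ((m : ℤ) : ZMod (a * b)) = (((m : ℤ) : ZMod a), ((m : ℤ) : ZMod b)) := by
    rw [map_intCast]; rfl
  have hiff : ∀ v : Fin 4 → ZMod (a * b), qz u v = ((m : ℤ) : ZMod (a * b)) ↔
      (qz u (fun i => (e (v i)).1) = ((m : ℤ) : ZMod a) ∧ qz u (fun i => (e (v i)).2) = ((m : ℤ) : ZMod b)) := by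
    intro v
    rw [← e.injective.eq_iff, hz, hm, Prod.mk.injEq]
  refine Finset.card_bij' (fun v _ => (fun i => (e (v i)).1, fun i => (e (v i)).2))
    (fun p _ => fun i => e.symm (p.1 i, p.2 i)) ?_ ?_ ?_ ?_
  · intro v hv
    rw [Finset.mem_filter] at hv
    rw [Finset.mem_product, Finset.mem_filter, Finset.mem_filter]
    have := (hiff v).1 hv.2
    exact ⟨⟨Finset.mem_univ _, this.1⟩, ⟨Finset.mem_univ _, this.2⟩⟩
  · intro p hp
    rw [Finset.mem_product, Finset.mem_filter, Finset.mem_filter] at hp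
    rw [Finset.mem_filter]
    refine ⟨Finset.mem_univ _, (hiff _).2 ?_⟩
    simp only [RingEquiv.apply_symm_apply]
    exact ⟨hp.1.2, hp.2.2⟩
  · intro v _
    funext i
    simp
  · intro p _
    simp

theorem ff_mult (u : Fin 4 → ℤ) (m : ℤ) : (ff u m).IsMultiplicative := by
  rw [ArithmeticFunction.IsMultiplicative.iff_ne_zero]
  constructor
  · rw [ff_apply]
    have h1 : NN 1 u m = 1 := by
      unfold NN
      rw [Finset.filter_true_of_mem]
      · unfold box
        rw [Fintype.card_piFinset]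
        simp
      · intro s _
        simp
    rw [h1]
    simp
  · intro a b ha hb hab
    rw [ff_apply, ff_apply, ff_apply, NN_mul a b ha hb hab]
    push_cast
    have ha' : (a : ℝ) ≠ 0 := by exact_mod_cast ha
    have hb' : (b : ℝ) ≠ 0 := by exact_mod_cast hb
    field_simp

/-- `AA` as an arithmetic function -/
noncomputable def gg (u : Fin 4 → ℤ) (m : ℤ) : ArithmeticFunction ℝ :=
  ((moebius : ArithmeticFunction ℤ) : ArithmeticFunction ℝ) * ff u m

theorem gg_eq (q : ℕ) (hq : 1 ≤ q) (u : Fin 4 → ℤ) (m : ℤ) : gg u m q = AA q u m := by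
  rw [AA_eq q hq]
  unfold gg
  rw [ArithmeticFunction.mul_apply,
    Nat.sum_divisorsAntidiagonal (fun a b => ((moebius : ArithmeticFunction ℤ) : ArithmeticFunction ℝ) a * ff u m b)]
  apply Finset.sum_congr rfl
  intro d _
  rw [ArithmeticFunction.intCoe_apply]

theorem gg_mult (u : Fin 4 → ℤ) (m : ℤ) : (gg u m).IsMultiplicative :=
  (ArithmeticFunction.isMultiplicative_moebius.intCast).mul (ff_mult u m)

theorem gg_pow (l j : ℕ) (hl : l.Prime) (u : Fin 4 → ℤ) (m : ℤ) :
    gg u m (l ^ (j + 1)) = ff u m (l ^ (j + 1)) - ff u m (l ^ j) := by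
  have h1 : ((zeta : ArithmeticFunction ℕ) : ArithmeticFunction ℝ) * gg u m = ff u m := by
    unfold gg
    rw [← mul_assoc, ArithmeticFunction.coe_zeta_mul_coe_moebius, one_mul]
  have h2 : ∀ k : ℕ, ff u m (l ^ k) = ∑ i ∈ range (k + 1), gg u m (l ^ i) := by
    intro k
    rw [← Nat.sum_divisors_prime_pow hl, ← ArithmeticFunction.coe_zeta_mul_apply, h1]
  rw [h2 (j + 1), h2 j, Finset.sum_range_succ _ (j + 1)]
  ring

theorem ser (h8 : S_LOC) (h9 : S_HEN) : S_SER := by
  intro u m P hu hP hD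
  -- prime powers
  have hpow : ∀ l k : ℕ, l.Prime → l ≤ P → 1 ≤ k →
      |gg u m (l ^ k)| ≤ 1 / ((l ^ k : ℕ) : ℝ) ^ 2 ∧ (l < 11 → gg u m (l ^ k) = 0) := by
    intro l k hl hlP hk
    obtain ⟨j, rfl⟩ := Nat.exists_eq_add_of_le' hk
    have hl0 : (l : ℝ) ≠ 0 := by exact_mod_cast hl.ne_zero
    by_cases h11 : l < 11
    · have hmem : l ∈ ({2, 3, 5, 7} : Finset ℕ) := by
        interval_cases l <;> first | decide | (exfalso; revert hl; decide)
      have hz : gg u m (l ^ (j + 1)) = 0 := by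
        rw [gg_pow l j hl, ff_apply, ff_apply, h9.2 l (j + 1) u m hmem hu, h9.2 l j u m hmem hu]
        have e1 : ((l ^ (3 * (j + 1)) : ℕ) : ℝ) / ((l ^ (j + 1) : ℕ) : ℝ) ^ 3 = 1 := by
          push_cast
          rw [← pow_mul, mul_comm 3 (j + 1)]
          exact div_self (pow_ne_zero _ hl0)
        have e2 : ((l ^ (3 * j) : ℕ) : ℝ) / ((l ^ j : ℕ) : ℝ) ^ 3 = 1 := by
          push_cast
          rw [← pow_mul, mul_comm 3 j]
          exact div_self (pow_ne_zero _ hl0)
        rw [e1, e2, sub_self]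
      rw [hz]
      exact ⟨by rw [abs_zero]; positivity, fun _ => rfl⟩
    · push Not at h11
      refine ⟨?_, fun h => absurd h (by omega)⟩
      have hDl := hD l hl h11 hlP
      rcases Nat.eq_zero_or_pos j with hj | hj
      · subst hj
        rw [gg_pow l 0 hl, ff_apply, ff_apply]
        have h1 := h8 l u m hl h11 hDl
        have h2 : |((NN l u m : ℝ)) - (l : ℝ) ^ 3| ≤ l := by exact_mod_cast h1
        have h3 : NN (l ^ 0) u m = 1 := by
          have := h9.2 2 0 u m (by decide) hu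
          simpa using this
        rw [h3]
        simp only [zero_add, pow_one, pow_zero, Nat.cast_one, one_pow, div_one]
        have h4 : (NN l u m : ℝ) / (l : ℝ) ^ 3 - 1 = ((NN l u m : ℝ) - (l : ℝ) ^ 3) / (l : ℝ) ^ 3 := by
          field_simp
        rw [h4, abs_div, abs_of_nonneg (by positivity : (0 : ℝ) ≤ (l : ℝ) ^ 3)]
        rw [div_le_div_iff₀ (by positivity) (by positivity)]
        have : (0 : ℝ) < (l : ℝ) ^ 2 := by positivity
        nlinarith
      · rw [gg_pow l j hl, ff_apply, ff_apply, h9.1 l j u m hl h11 hDl hj]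
        have h5 : ((l ^ 3 * NN (l ^ j) u m : ℕ) : ℝ) / ((l ^ (j + 1) : ℕ) : ℝ) ^ 3 =
            (NN (l ^ j) u m : ℝ) / ((l ^ j : ℕ) : ℝ) ^ 3 := by
          push_cast
          field_simp
          ring
        rw [h5, sub_self, abs_zero]
        positivity
  -- all moduli
  have hall : ∀ q : ℕ, 2 ≤ q → q ≤ P → |gg u m q| ≤ 1 / (q : ℝ) ^ 2 ∧ (q < 11 → gg u m q = 0) := by
    intro q hq2 hqP
    have hq0 : q ≠ 0 := by omega
    have hfac := ArithmeticFunction.IsMultiplicative.multiplicative_factorization (gg u m) (gg_mult u m) hq0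
    rw [Finsupp.prod] at hfac
    have hsupp : ∀ p ∈ q.factorization.support, p.Prime ∧ p ≤ P ∧ 1 ≤ q.factorization p := by
      intro p hp
      rw [Nat.support_factorization] at hp
      have hpp := Nat.prime_of_mem_primeFactors hp
      have hpd := Nat.dvd_of_mem_primeFactors hp
      exact ⟨hpp, (Nat.le_of_dvd (by omega) hpd).trans hqP, (hpp.dvd_iff_one_le_factorization hq0).1 hpd⟩
    constructor
    · rw [hfac, Finset.abs_prod]
      have h1 : (q : ℝ) = ∏ p ∈ q.factorization.support, ((p ^ q.factorization p : ℕ) : ℝ) := by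
        have := Nat.prod_factorization_pow_eq_self hq0
        rw [Finsupp.prod] at this
        rw [← Nat.cast_prod, this]
      have h2 : 1 / (q : ℝ) ^ 2 = ∏ p ∈ q.factorization.support, 1 / ((p ^ q.factorization p : ℕ) : ℝ) ^ 2 := by
        conv_lhs => rw [h1]
        rw [Finset.prod_div_distrib, Finset.prod_const_one, Finset.prod_pow]
      rw [h2]
      apply Finset.prod_le_prod
      · intro p _; positivity
      · intro p hp
        obtain ⟨a1, a2, a3⟩ := hsupp p hp
        exact (hpow p _ a1 a2 a3).1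
    · intro hq11
      have hp := Nat.minFac_prime (by omega : q ≠ 1)
      have hmem : q.minFac ∈ q.factorization.support := by
        rw [Nat.support_factorization]
        exact Nat.mem_primeFactors.2 ⟨hp, Nat.minFac_dvd q, hq0⟩
      obtain ⟨a1, a2, a3⟩ := hsupp _ hmem
      rw [hfac]
      apply Finset.prod_eq_zero hmem
      exact (hpow _ _ a1 a2 a3).2 (lt_of_le_of_lt (Nat.minFac_le (by omega)) hq11)
  have hone : gg u m 1 = 1 := (gg_mult u m).map_one
  -- partial sums
  have hsum : ∀ n : ℕ, 1 ≤ n → n ≤ P → (9 / 10 : ℝ) + 1 / (max n 10 : ℕ) ≤ ∑ q ∈ Icc 1 n, gg u m q := by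
    intro n hn
    induction n, hn using Nat.le_induction with
    | base =>
      intro _
      rw [Finset.Icc_self, Finset.sum_singleton, hone]
      norm_num
    | succ n hn ih =>
      intro hnP
      have ih' := ih (by omega)
      rw [Finset.sum_Icc_succ_top (by omega)]
      have hq := hall (n + 1) (by omega) hnP
      by_cases h10 : n + 1 < 11
      · rw [hq.2 h10, add_zero]
        have e1 : max (n + 1) 10 = 10 := by omega
        have e2 : max n 10 = 10 := by omega
        rw [e1]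
        rw [e2] at ih'
        exact ih'
      · push Not at h10
        have e1 : max (n + 1) 10 = n + 1 := by omega
        have e2 : max n 10 = n := by omega
        rw [e1]
        rw [e2] at ih'
        have h3 := neg_abs_le (gg u m (n + 1))
        have h4 := hq.1
        have hn0 : (0 : ℝ) < n := by exact_mod_cast (by omega : 0 < n)
        have h5 : (1 : ℝ) / ((n + 1 : ℕ) : ℝ) + 1 / ((n + 1 : ℕ) : ℝ) ^ 2 ≤ 1 / n := by
          push_cast
          rw [div_add_div _ _ (by positivity) (by positivity), div_le_div_iff₀ (by positivity) hn0]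
          nlinarith
        linarith
  have hfin := hsum P hP le_rfl
  have h6 : ∑ q ∈ Icc 1 P, AA q u m = ∑ q ∈ Icc 1 P, gg u m q := by
    apply Finset.sum_congr rfl
    intro q hq
    rw [Finset.mem_Icc] at hq
    rw [gg_eq q hq.1]
  rw [h6]
  have h7 : (0 : ℝ) ≤ 1 / (max P 10 : ℕ) := by positivity
  linarith

end Pool.Agent.D0H52.TW
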