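import Pool.Agent.D0H11.TW.Stm

/-!
# TW: vectors modulo `q` (helper52)
-/

set_option autoImplicit false

namespace Pool.Agent.D0H52.TW

open Finset hiding box
open Pool.Agent.D0H11.TW

/-- `qf` modulo `q` -/
def qz {q : ℕ} (u : Fin 4 → ℤ) (v : Fin 4 → ZMod q) : ZMod q :=
  ∑ i, ((cc i : ℤ) : ZMod q) * (420 * v i ^ 2 + ((u i : ℤ) : ZMod q) * v i)

theorem sum_box {q : ℕ} [NeZero q] {M : Type} [AddCommMonoid M] (f : (Fin 4 → ZMod q) → M) :
    ∑ s ∈ box q, f (fun i => ((s i : ℤ) : ZMod q)) = ∑ v, f v := by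
  refine Finset.sum_bij' (fun s _ => fun i => ((s i : ℤ) : ZMod q))
    (fun v _ => fun i => ((v i).val : ℤ)) (fun s _ => Finset.mem_univ _) ?_ ?_ ?_ (fun s _ => rfl)
  · intro v _
    unfold box
    rw [Fintype.mem_piFinset]
    intro i
    rw [Finset.mem_Ico]
    exact ⟨by positivity, by exact_mod_cast ZMod.val_lt (v i)⟩
  · intro s hs
    unfold box at hs
    rw [Fintype.mem_piFinset] at hs
    funext i
    have h := hs i
    rw [Finset.mem_Ico] at h
    simp only
    rw [ZMod.val_intCast, Int.emod_eq_of_lt h.1 h.2]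
  · intro v _
    funext i
    simp

theorem qf_cast {q : ℕ} (u s : Fin 4 → ℤ) :
    ((qf u s : ℤ) : ZMod q) = qz u (fun i => ((s i : ℤ) : ZMod q)) := by
  unfold qf qz ph
  push_cast
  rfl

theorem NN_eq {q : ℕ} [NeZero q] (u : Fin 4 → ℤ) (m : ℤ) :
    NN q u m = (univ.filter fun v : Fin 4 → ZMod q => qz u v = (m : ZMod q)).card := by
  unfold NN
  rw [Finset.card_filter, Finset.card_filter]
  rw [← sum_box (fun v : Fin 4 → ZMod q => if qz u v = (m : ZMod q) then 1 else 0)]
  apply Finset.sum_congr rfl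
  intro s _
  rw [← qf_cast]
  have : ((q : ℤ) ∣ qf u s - m) ↔ ((qf u s : ℤ) : ZMod q) = (m : ZMod q) := by
    rw [← ZMod.intCast_zmod_eq_zero_iff_dvd, Int.cast_sub, sub_eq_zero]
  by_cases h : ((qf u s : ℤ) : ZMod q) = (m : ZMod q)
  · rw [if_pos (this.2 h), if_pos h]
  · rw [if_neg (fun h' => h (this.1 h')), if_neg h]

/-- one coordinate enters bijectively -/
theorem card_one {q : ℕ} [NeZero q] (i : Fin 4) (F : Fin 4 → ZMod q → ZMod q) (m : ZMod q)
    (h : Function.Bijective (F i)) :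
    (univ.filter fun v : Fin 4 → ZMod q => ∑ k, F k (v k) = m).card = q ^ 3 := by
  have hcard : (univ : Finset (Fin 3 → ZMod q)).card = q ^ 3 := by
    rw [Finset.card_univ, Fintype.card_fun, ZMod.card, Fintype.card_fin]
  rw [← hcard]
  let e := Equiv.ofBijective _ h
  refine Finset.card_bij' (fun v _ => fun k => v (i.succAbove k))
    (fun w _ => i.insertNth (e.symm (m - ∑ k, F (i.succAbove k) (w k))) w)
    (fun v _ => Finset.mem_univ _) ?_ ?_ ?_
  · intro w _
    rw [Finset.mem_filter]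
    refine ⟨Finset.mem_univ _, ?_⟩
    rw [Fin.sum_univ_succAbove _ i]
    simp only [Fin.insertNth_apply_same, Fin.insertNth_apply_succAbove]
    have : F i (e.symm (m - ∑ k, F (i.succAbove k) (w k))) = m - ∑ k, F (i.succAbove k) (w k) :=
      e.apply_symm_apply _
    rw [this]
    ring
  · intro v hv
    rw [Finset.mem_filter, Fin.sum_univ_succAbove _ i] at hv
    have h1 : m - ∑ k, F (i.succAbove k) (v (i.succAbove k)) = F i (v i) := by
      rw [← hv.2]; ring
    have h2 : e.symm (F i (v i)) = v i := e.symm_apply_apply _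
    simp only
    rw [h1, h2]
    exact Fin.insertNth_self_removeNth i v
  · intro w _
    funext k
    simp

end Pool.Agent.D0H52.TW
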