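import Pool.Agent.D0H52.TW.Base
import Pool.Agent.W65.FS.NegOne

/-!
# TW: solutions modulo a prime `l ≥ 11` (helper52)
-/

set_option autoImplicit false

namespace Pool.Agent.D0H52.TW

open Finset hiding box
open Pool.Agent.D0H11.TW

section gs

variable {l : ℕ} [hl : Fact l.Prime]

/-- quadratic Gauss sums -/
noncomputable def gs (l : ℕ) [Fact l.Prime] (b : ZMod l) : ℂ :=
  ∑ x : ZMod l, (ZMod.stdAddChar (b * x ^ 2) : ℂ)

theorem gs_eq (h2 : l ≠ 2) (b : ZMod l) (hb : b ≠ 0) :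
    gs l b = ((quadraticChar (ZMod l) b : ℤ) : ℂ) *
      ∑ t : ZMod l, ((quadraticChar (ZMod l) t : ℤ) : ℂ) * (ZMod.stdAddChar t : ℂ) := by
  have hF : ringChar (ZMod l) ≠ 2 := by rw [ZMod.ringChar_zmod_n]; exact h2
  have h1 : gs l b = ∑ t : ZMod l, (((quadraticChar (ZMod l) t : ℤ) : ℂ) + 1) *
      (ZMod.stdAddChar (b * t) : ℂ) := by
    unfold gs
    rw [← Finset.sum_fiberwise (s := (univ : Finset (ZMod l))) (g := fun x : ZMod l => x ^ 2)
      (f := fun x : ZMod l => (ZMod.stdAddChar (b * x ^ 2) : ℂ))]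
    apply Finset.sum_congr rfl
    intro t _
    have h3 : ∀ x ∈ univ.filter (fun x : ZMod l => x ^ 2 = t),
        (ZMod.stdAddChar (b * x ^ 2) : ℂ) = ZMod.stdAddChar (b * t) := by
      intro x hx
      rw [Finset.mem_filter] at hx
      rw [hx.2]
    rw [Finset.sum_congr rfl h3, Finset.sum_const, nsmul_eq_mul]
    congr 1
    have h4 := quadraticChar_card_sqrts hF t
    have h5 : ({x : ZMod l | x ^ 2 = t}.toFinset) = univ.filter (fun x : ZMod l => x ^ 2 = t) := by
      ext x; simp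
    rw [h5] at h4
    have h6 : (((univ.filter (fun x : ZMod l => x ^ 2 = t)).card : ℤ) : ℂ) =
        ((quadraticChar (ZMod l) t + 1 : ℤ) : ℂ) := by rw [h4]
    push_cast at h6
    exact h6
  rw [h1]
  simp_rw [add_mul, one_mul]
  rw [Finset.sum_add_distrib]
  have h7 : ∑ t : ZMod l, (ZMod.stdAddChar (b * t) : ℂ) = 0 := by
    have := AddChar.sum_mulShift b (ZMod.isPrimitive_stdAddChar l)
    rw [if_neg hb, Nat.cast_zero] at this
    rw [← this]
    apply Finset.sum_congr rfl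
    intro t _
    rw [mul_comm]
  rw [h7, add_zero, Finset.mul_sum]
  have h8 : ∑ t : ZMod l, ((quadraticChar (ZMod l) b : ℤ) : ℂ) *
      (((quadraticChar (ZMod l) t : ℤ) : ℂ) * (ZMod.stdAddChar t : ℂ)) =
      ∑ t : ZMod l, ((quadraticChar (ZMod l) b : ℤ) : ℂ) *
      (((quadraticChar (ZMod l) (b * t) : ℤ) : ℂ) * (ZMod.stdAddChar (b * t) : ℂ)) :=
    (Equiv.sum_comp (Equiv.mulLeft₀ b hb) _).symm
  rw [h8]
  apply Finset.sum_congr rfl
  intro t _
  have hm : quadraticChar (ZMod l) (b * t) = quadraticChar (ZMod l) b * quadraticChar (ZMod l) t :=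
    map_mul _ _ _
  rw [hm]
  have h9 : ((quadraticChar (ZMod l) b : ℤ) : ℂ) * ((quadraticChar (ZMod l) b : ℤ) : ℂ) = 1 := by
    have := quadraticChar_sq_one hb
    have h10 : ((quadraticChar (ZMod l) b ^ 2 : ℤ) : ℂ) = 1 := by rw [this]; simp
    push_cast at h10
    rw [← h10]; ring
  push_cast
  linear_combination (-((quadraticChar (ZMod l) t : ℤ) : ℂ) * (ZMod.stdAddChar (b * t) : ℂ)) * h9

theorem gs_mul (h2 : l ≠ 2) (b : ZMod l) (hb : b ≠ 0) :
    gs l b = ((quadraticChar (ZMod l) b : ℤ) : ℂ) * gs l 1 := by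
  rw [gs_eq h2 b hb, gs_eq h2 1 one_ne_zero]
  simp

theorem gs_prod (h2 : l ≠ 2) (c : Fin 4 → ZMod l) (hc : ∀ i, c i ≠ 0) (a : ZMod l) (ha : a ≠ 0) :
    ∏ i, gs l (a * c i) = ((∏ i, quadraticChar (ZMod l) (c i) : ℤ) : ℂ) * (l : ℂ) ^ 2 := by
  have hodd : Odd l := hl.out.odd_of_ne_two h2
  have h4 : gs l 1 ^ 4 = (l : ℂ) ^ 2 := by
    have := Pool.Agent.W65.FS.gauss_four l hodd 1 isUnit_one
    exact this
  have h1 : ∀ i, gs l (a * c i) = ((quadraticChar (ZMod l) a : ℤ) : ℂ) *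
      ((quadraticChar (ZMod l) (c i) : ℤ) : ℂ) * gs l 1 := by
    intro i
    rw [gs_mul h2 _ (mul_ne_zero ha (hc i)), map_mul]
    push_cast
    rfl
  simp_rw [h1]
  rw [Finset.prod_mul_distrib, Finset.prod_mul_distrib, Finset.prod_const, Finset.prod_const,
    Finset.card_univ, Fintype.card_fin, h4]
  have h9 : ((quadraticChar (ZMod l) a : ℤ) : ℂ) ^ 4 = 1 := by
    have := quadraticChar_sq_one ha
    have h10 : ((quadraticChar (ZMod l) a ^ 2 : ℤ) : ℂ) = 1 := by rw [this]; simp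
    push_cast at h10
    calc ((quadraticChar (ZMod l) a : ℤ) : ℂ) ^ 4 = (((quadraticChar (ZMod l) a : ℤ) : ℂ) ^ 2) ^ 2 := by
          ring
      _ = 1 := by rw [h10]; ring
  rw [h9, one_mul]
  push_cast
  rfl

theorem cnt (h2 : l ≠ 2) (c : Fin 4 → ZMod l) (hc : ∀ i, c i ≠ 0) (D : ZMod l) (hD : D ≠ 0) :
    (((univ.filter fun w : Fin 4 → ZMod l => ∑ i, c i * w i ^ 2 = D).card : ℕ) : ℂ) * l =
      (l : ℂ) ^ 4 - ((∏ i, quadraticChar (ZMod l) (c i) : ℤ) : ℂ) * (l : ℂ) ^ 2 := by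
  have h1 : (((univ.filter fun w : Fin 4 → ZMod l => ∑ i, c i * w i ^ 2 = D).card : ℕ) : ℂ) * l =
      ∑ w : Fin 4 → ZMod l, ∑ a : ZMod l, (ZMod.stdAddChar (a * (∑ i, c i * w i ^ 2 - D)) : ℂ) := by
    rw [Finset.card_filter]
    push_cast
    rw [Finset.sum_mul]
    apply Finset.sum_congr rfl
    intro w _
    rw [AddChar.sum_mulShift _ (ZMod.isPrimitive_stdAddChar l)]
    simp only [sub_eq_zero]
    split_ifs <;> simp
  have h2' : ∀ a : ZMod l, ∑ w : Fin 4 → ZMod l,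
      (ZMod.stdAddChar (a * (∑ i, c i * w i ^ 2 - D)) : ℂ) =
      (ZMod.stdAddChar (-(a * D)) : ℂ) * ∏ i, gs l (a * c i) := by
    intro a
    unfold gs
    rw [Finset.prod_univ_sum, Fintype.piFinset_univ, Finset.mul_sum]
    apply Finset.sum_congr rfl
    intro w _
    rw [Fin.prod_univ_four, ← AddChar.map_add_eq_mul, ← AddChar.map_add_eq_mul,
      ← AddChar.map_add_eq_mul, ← AddChar.map_add_eq_mul]
    congr 1
    rw [Fin.sum_univ_four]
    ring
  rw [h1, Finset.sum_comm]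
  simp_rw [h2']
  rw [← Finset.add_sum_erase _ _ (Finset.mem_univ (0 : ZMod l))]
  have h3 : (ZMod.stdAddChar (-((0 : ZMod l) * D)) : ℂ) * ∏ i, gs l (0 * c i) = (l : ℂ) ^ 4 := by
    simp [gs, ZMod.card]
  rw [h3]
  have h4 : ∑ a ∈ univ.erase (0 : ZMod l), (ZMod.stdAddChar (-(a * D)) : ℂ) * ∏ i, gs l (a * c i) =
      (∑ a ∈ univ.erase (0 : ZMod l), (ZMod.stdAddChar (-(a * D)) : ℂ)) *
        (((∏ i, quadraticChar (ZMod l) (c i) : ℤ) : ℂ) * (l : ℂ) ^ 2) := by
    rw [Finset.sum_mul]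
    apply Finset.sum_congr rfl
    intro a ha
    rw [gs_prod h2 c hc a (Finset.ne_of_mem_erase ha)]
  rw [h4]
  have h5 : ∑ a ∈ univ.erase (0 : ZMod l), (ZMod.stdAddChar (-(a * D)) : ℂ) = -1 := by
    have h6 := AddChar.sum_mulShift (-D) (ZMod.isPrimitive_stdAddChar l)
    rw [if_neg (neg_ne_zero.2 hD), ← Finset.add_sum_erase _ _ (Finset.mem_univ (0 : ZMod l))] at h6
    have h7 : ∑ a ∈ univ.erase (0 : ZMod l), (ZMod.stdAddChar (-(a * D)) : ℂ) =
        ∑ a ∈ univ.erase (0 : ZMod l), (ZMod.stdAddChar (a * -D) : ℂ) := by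
      apply Finset.sum_congr rfl
      intro a _
      rw [mul_neg]
    rw [h7]
    have h8 : (ZMod.stdAddChar ((0 : ZMod l) * -D) : ℂ) = 1 := by simp
    rw [h8] at h6
    push_cast at h6
    linear_combination h6
  rw [h5]
  ring

end gs

theorem cast_ne {l : ℕ} (hl : l.Prime) (h11 : 11 ≤ l) (n : ℕ) (hn : ∀ p : ℕ, p.Prime → p ∣ n → p < 11)
    : ((n : ℕ) : ZMod l) ≠ 0 := by
  intro h
  rw [ZMod.natCast_eq_zero_iff] at h
  have := hn l hl h
  omega

theorem loc : S_LOC := by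
  intro l u m hl h11 hD
  have : Fact l.Prime := ⟨hl⟩
  have : NeZero l := ⟨hl.ne_zero⟩
  have h2 : l ≠ 2 := by omega
  have hsmall : ∀ n : ℕ, n ∣ 840 ^ 2 → ((n : ℕ) : ZMod l) ≠ 0 := by
    intro n hn
    apply cast_ne hl h11
    intro p hp hpn
    have h3 : p ∣ 840 := hp.dvd_of_dvd_pow (hpn.trans hn)
    have h4 : p ∣ 2 ^ 3 * 3 * 5 * 7 := by norm_num; exact h3
    rcases (Nat.Prime.dvd_mul hp).1 h4 with h4 | h4
    · rcases (Nat.Prime.dvd_mul hp).1 h4 with h4 | h4
      · rcases (Nat.Prime.dvd_mul hp).1 h4 with h4 | h4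
        · have := Nat.le_of_dvd (by norm_num) (hp.dvd_of_dvd_pow h4); omega
        · have := Nat.le_of_dvd (by norm_num) h4; omega
      · have := Nat.le_of_dvd (by norm_num) h4; omega
    · have := Nat.le_of_dvd (by norm_num) h4; omega
  have h840 : (840 : ZMod l) ≠ 0 := by exact_mod_cast hsmall 840 (by norm_num)
  have h1680 : (1680 : ZMod l) ≠ 0 := by exact_mod_cast hsmall 1680 (by norm_num)
  have hc : ∀ i, ((cc i : ℤ) : ZMod l) ≠ 0 := by
    intro i
    fin_cases i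
    · simp [cc]
    · simpa [cc] using hsmall 3 (by norm_num)
    · simpa [cc] using hsmall 5 (by norm_num)
    · simpa [cc] using hsmall 7 (by norm_num)
  set D : ZMod l := ((1680 * m + Qf u : ℤ) : ZMod l) with hDdef
  have hD' : D ≠ 0 := by
    intro h
    exact hD ((ZMod.intCast_zmod_eq_zero_iff_dvd _ _).1 h)
  have key : NN l u m = (univ.filter fun w : Fin 4 → ZMod l =>
      ∑ i, ((cc i : ℤ) : ZMod l) * w i ^ 2 = D).card := by
    rw [NN_eq]
    refine Finset.card_bij' (fun v _ => fun i => 840 * v i + ((u i : ℤ) : ZMod l))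
      (fun w _ => fun i => (w i - ((u i : ℤ) : ZMod l)) / 840) ?_ ?_ ?_ ?_
    · intro v hv
      rw [Finset.mem_filter] at hv ⊢
      refine ⟨Finset.mem_univ _, ?_⟩
      have h3 : ∑ i, ((cc i : ℤ) : ZMod l) * (840 * v i + ((u i : ℤ) : ZMod l)) ^ 2 =
          1680 * qz u v + ((Qf u : ℤ) : ZMod l) := by
        unfold qz Qf
        push_cast
        rw [Finset.mul_sum, ← Finset.sum_add_distrib]
        apply Finset.sum_congr rfl
        intro i _
        ring
      rw [h3, hv.2, hDdef]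
      push_cast
      ring
    · intro w hw
      rw [Finset.mem_filter] at hw ⊢
      refine ⟨Finset.mem_univ _, ?_⟩
      have h3 : 1680 * qz u (fun i => (w i - ((u i : ℤ) : ZMod l)) / 840) + ((Qf u : ℤ) : ZMod l) =
          ∑ i, ((cc i : ℤ) : ZMod l) * w i ^ 2 := by
        unfold qz Qf
        push_cast
        rw [Finset.mul_sum, ← Finset.sum_add_distrib]
        apply Finset.sum_congr rfl
        intro i _
        have h5 : w i = 840 * ((w i - ((u i : ℤ) : ZMod l)) / 840) + ((u i : ℤ) : ZMod l) := by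
          field_simp
          ring
        conv_rhs => rw [h5]
        ring
      have h4 : (1680 : ZMod l) * (qz u (fun i => (w i - ((u i : ℤ) : ZMod l)) / 840) - (m : ZMod l)) = 0 := by
        have h6 := hw.2
        rw [← h3, hDdef] at h6
        push_cast at h6 ⊢
        linear_combination h6
      exact sub_eq_zero.1 ((mul_eq_zero.1 h4).resolve_left h1680)
    · intro v _
      funext i
      simp only
      field_simp
      ring
    · intro w _
      funext i
      simp only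
      field_simp
      ring
  have h6 := cnt h2 (fun i => ((cc i : ℤ) : ZMod l)) hc D hD'
  rw [← key] at h6
  set χ : ℤ := ∏ i, quadraticChar (ZMod l) ((cc i : ℤ) : ZMod l) with hχ
  have h7 : (NN l u m : ℤ) * l = (l : ℤ) ^ 4 - χ * (l : ℤ) ^ 2 := by exact_mod_cast h6
  have hl0 : (l : ℤ) ≠ 0 := by exact_mod_cast hl.ne_zero
  have h8 : (NN l u m : ℤ) = (l : ℤ) ^ 3 - χ * l := by
    apply mul_right_cancel₀ hl0
    rw [h7]; ring
  have h9 : |χ| ≤ 1 := by
    rw [hχ, Finset.abs_prod]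
    apply Finset.prod_le_one
    · intro i _; positivity
    · intro i _
      rcases quadraticChar_dichotomy (hc i) with h | h <;> rw [h] <;> simp
  rw [h8]
  have h10 : (l : ℤ) ^ 3 - χ * l - (l : ℤ) ^ 3 = -(χ * l) := by ring
  rw [h10, abs_neg, abs_mul]
  have h11 : |(l : ℤ)| = l := abs_of_nonneg (by positivity)
  rw [h11]
  have : (0 : ℤ) ≤ l := by positivity
  nlinarith

end Pool.Agent.D0H52.TW
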